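import Pool.Agent.K1H70.KG.Stm
import Pool.Agent.K1H65.KR.Inv

/-! Piece KG-Q2 (S_INV): infinitesimal invariance and degree of the determinant of the words in
several matrices (helper39 for helper70; generalises K1H65/KR/Inv by helper65). -/

set_option autoImplicit false

namespace Pool.Agent.K1H39.KG

open MvPolynomial Pool.Agent.K1H70.KR Pool.Agent.K1H70.KR.Inv
open Pool.Agent.K1H70.KG (V T mA mv wv fdet nw)

variable {α ρ : Type} {m : ℕ}

theorem wv_nil {R : Type} [CommRing R] (x : V α ρ m → R) (l : ρ) (a : Fin m) :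
    wv x [] l a = x (a, Sum.inr l) := rfl

theorem wv_cons {R : Type} [CommRing R] (x : V α ρ m → R) (b : α) (w : List α) (l : ρ)
    (a : Fin m) : wv x (b :: w) l a = ∑ c, x (a, Sum.inl (b, c)) * wv x w l c := rfl

section

variable [Fintype α] [Fintype ρ]

theorem linD_inr (p q : Fin m) (a : Fin m) (l : ρ) :
    linD (Pool.Agent.K1H70.KG.Mpq (α := α) p q) (X (a, Sum.inr l) : MvPolynomial (V α ρ m) ℂ) =
      if a = p then X (q, Sum.inr l) else 0 := by
  classical
  rw [linD_X]
  rw [Finset.sum_eq_single (q, Sum.inr l)]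
  · unfold Pool.Agent.K1H70.KG.Mpq
    by_cases h : a = p
    · simp [h]
    · simp [h]
  · rintro ⟨b, t⟩ _ hne
    have h0 : Pool.Agent.K1H70.KG.Mpq p q (b, t) (a, (Sum.inr l : (α × Fin m) ⊕ ρ)) = 0 := by
      unfold Pool.Agent.K1H70.KG.Mpq
      rw [if_neg, if_neg, sub_zero]
      · rintro ⟨_, _, _, h⟩
        exact absurd h (by simp)
      · rintro ⟨h1, _, h2⟩
        dsimp only at h1 h2
        exact hne (by rw [h1, h2])
    rw [h0, Complex.ofReal_zero, zero_smul]
  · intro h
    exact absurd (Finset.mem_univ _) h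

theorem linD_inl (p q : Fin m) (a : Fin m) (b : α) (c : Fin m) :
    linD (Pool.Agent.K1H70.KG.Mpq (α := α) p q)
      (X (a, Sum.inl (b, c)) : MvPolynomial (V α ρ m) ℂ) =
      (if a = p then X (q, Sum.inl (b, c)) else 0) -
        if c = q then X (a, Sum.inl (b, p)) else 0 := by
  classical
  rw [linD_X]
  have h1 : ∀ u : V α ρ m,
      ((Pool.Agent.K1H70.KG.Mpq p q u (a, Sum.inl (b, c)) : ℝ) : ℂ) •
        (X u : MvPolynomial (V α ρ m) ℂ) =
      (if u = (q, Sum.inl (b, c)) then (if a = p then X u else 0) else 0) -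
        (if u = (a, Sum.inl (b, p)) then (if c = q then X u else 0) else 0) := by
    rintro ⟨k, t⟩
    have h2 : (k = a ∧ ∃ b', t = Sum.inl (b', p) ∧ (Sum.inl (b, c) : (α × Fin m) ⊕ ρ) =
        Sum.inl (b', q)) ↔ ((k = a ∧ t = Sum.inl (b, p)) ∧ c = q) := by
      constructor
      · rintro ⟨h, b', h3, h4⟩
        rw [Sum.inl.injEq, Prod.mk.injEq] at h4
        obtain ⟨rfl, rfl⟩ := h4
        exact ⟨⟨h, h3⟩, rfl⟩
      · rintro ⟨⟨h, h3⟩, rfl⟩
        exact ⟨h, b, h3, rfl⟩
    unfold Pool.Agent.K1H70.KG.Mpq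
    dsimp only
    simp only [h2]
    by_cases hc : k = q <;> by_cases ha : a = p <;> by_cases ht : t = Sum.inl (b, c) <;>
      by_cases hca : k = a <;> by_cases htp : t = Sum.inl (b, p) <;> by_cases hb : c = q <;>
      simp [hc, ha, ht, hca, htp, hb, sub_smul]
  rw [Finset.sum_congr rfl fun u _ => h1 u, Finset.sum_sub_distrib, Finset.sum_ite_eq',
    Finset.sum_ite_eq', if_pos (Finset.mem_univ _), if_pos (Finset.mem_univ _)]

theorem linD_wv (p q : Fin m) (w : List α) (l : ρ) (a : Fin m) :
    linD (Pool.Agent.K1H70.KG.Mpq (α := α) p q)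
      (wv (X : V α ρ m → MvPolynomial (V α ρ m) ℂ) w l a) =
      if a = p then wv (X : V α ρ m → MvPolynomial (V α ρ m) ℂ) w l q else 0 := by
  induction w generalizing a with
  | nil => rw [wv_nil, wv_nil, linD_inr]
  | cons b w ih =>
    rw [wv_cons, wv_cons, map_sum]
    have h1 : ∀ c : Fin m, linD (Pool.Agent.K1H70.KG.Mpq (α := α) p q)
        ((X (a, Sum.inl (b, c)) : MvPolynomial (V α ρ m) ℂ) * wv X w l c) =
        (if a = p then X (q, Sum.inl (b, c)) * wv X w l c else 0) -
          (if c = q then X (a, Sum.inl (b, p)) * wv X w l c else 0) +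
          if c = p then X (a, Sum.inl (b, c)) * wv X w l q else 0 := by
      intro c
      rw [Derivation.leibniz, ih, linD_inl, smul_eq_mul, smul_eq_mul]
      split_ifs <;> ring
    rw [Finset.sum_congr rfl fun b _ => h1 b, Finset.sum_add_distrib, Finset.sum_sub_distrib,
      Finset.sum_ite_eq', Finset.sum_ite_eq', if_pos (Finset.mem_univ _),
      if_pos (Finset.mem_univ _), sub_add_cancel]
    by_cases ha : a = p
    · simp [ha]
    · simp [ha]

omit [Fintype α] [Fintype ρ] in
open Classical in
theorem eulD_wv (j : ρ) (w : List α) (l : ρ) (a : Fin m) :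
    eulD (fun a : Fin m => (a, (Sum.inr j : (α × Fin m) ⊕ ρ)))
      (wv (X : V α ρ m → MvPolynomial (V α ρ m) ℂ) w l a) =
      if l = j then wv (X : V α ρ m → MvPolynomial (V α ρ m) ℂ) w l a else 0 := by
  have hX : ∀ u : V α ρ m,
      eulD (fun a : Fin m => (a, (Sum.inr j : (α × Fin m) ⊕ ρ))) (X u) =
        if u.2 = Sum.inr j then X u else 0 := by
    rintro ⟨c, t⟩
    unfold eulD
    rw [dsum_apply]
    rw [Finset.sum_eq_single c]
    · rw [Derivation.smul_apply, pderiv_X]
      by_cases ht : t = Sum.inr j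
      · subst ht
        simp
      · rw [if_neg ht, Pi.single_eq_of_ne, smul_zero]
        intro h
        exact ht (Prod.mk.inj h).2
    · intro b _ hb
      rw [Derivation.smul_apply, pderiv_X_of_ne, smul_zero]
      intro h
      exact hb (Prod.mk.inj h).1.symm
    · intro h
      exact absurd (Finset.mem_univ _) h
  induction w generalizing a with
  | nil =>
    rw [wv_nil, hX]
    simp
  | cons b w ih =>
    rw [wv_cons, map_sum]
    have h1 : ∀ c : Fin m, eulD (fun a : Fin m => (a, (Sum.inr j : (α × Fin m) ⊕ ρ)))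
        ((X (a, Sum.inl (b, c)) : MvPolynomial (V α ρ m) ℂ) * wv X w l c) =
        if l = j then X (a, Sum.inl (b, c)) * wv X w l c else 0 := by
      intro c
      rw [Derivation.leibniz, ih, hX, smul_eq_mul, smul_eq_mul]
      by_cases hl : l = j
      · simp [hl]
      · simp [hl]
    rw [Finset.sum_congr rfl fun b _ => h1 b]
    by_cases hl : l = j
    · simp [hl]
    · simp [hl]

end

theorem t_INV : Pool.Agent.K1H70.KG.S_INV := by
  classical
  intro α ρ _ _ m ω d e
  refine ⟨?_, ?_⟩
  · intro p q hpq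
    rw [lin_apply]
    unfold fdet
    rw [der_det]
    refine Finset.sum_eq_zero fun a _ => ?_
    by_cases ha : a = p
    · refine Matrix.det_zero_of_column_eq (i := a) (j := q) (by rw [ha]; exact hpq) fun k => ?_
      rw [Matrix.updateCol_self, Matrix.updateCol_ne (by rw [ha]; exact hpq.symm),
        Matrix.of_apply, Matrix.of_apply]
      rw [linD_wv, if_pos ha]
    · refine Matrix.det_eq_zero_of_column_eq_zero a fun k => ?_
      rw [Matrix.updateCol_self, Matrix.of_apply]
      rw [linD_wv, if_neg ha]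
  · intro j
    rw [eul_apply (fun a : Fin m => (a, (Sum.inr j : (α × Fin m) ⊕ ρ)))]
    unfold fdet
    rw [der_det_row]
    set M : Matrix (Fin m) (Fin m) (MvPolynomial (V α ρ m) ℂ) :=
      Matrix.of fun k a : Fin m => wv X (e.symm k).1.1 (e.symm k).1.2 a with hM
    have h1 : ∀ a : Fin m, (M.updateRow a fun b =>
        eulD (fun a : Fin m => (a, (Sum.inr j : (α × Fin m) ⊕ ρ))) (M a b)).det =
        if (e.symm a).1.2 = j then M.det else 0 := by
      intro a
      by_cases ha : (e.symm a).1.2 = j
      · rw [if_pos ha]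
        congr 1
        conv_rhs => rw [← Matrix.updateRow_eq_self M a]
        congr 1
        funext b
        rw [hM, Matrix.of_apply]
        rw [eulD_wv, if_pos ha]
      · rw [if_neg ha]
        refine Matrix.det_eq_zero_of_row_eq_zero a fun b => ?_
        rw [Matrix.updateRow_self, hM, Matrix.of_apply, eulD_wv, if_neg ha]
    rw [Finset.sum_congr rfl fun a _ => h1 a, ← Finset.sum_filter, Finset.sum_const]
    have hcard : (Finset.univ.filter fun a : Fin m => (e.symm a).1.2 = j).card = nw ω (d j) := by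
      unfold nw
      rw [← Fintype.card_subtype, ← Nat.card_eq_fintype_card]
      refine Nat.card_congr ⟨fun a => ⟨(e.symm a.1).1.1, ?_⟩, fun w => ⟨e ⟨(w.1, j), w.2⟩, ?_⟩,
        ?_, ?_⟩
      · have h := (e.symm a.1).2
        rw [a.2] at h
        exact h
      · rw [Equiv.symm_apply_apply]
      · rintro ⟨a, ha⟩
        apply Subtype.ext
        dsimp only
        rw [Equiv.apply_eq_iff_eq_symm_apply]
        apply Subtype.ext
        exact Prod.ext rfl ha.symm
      · rintro ⟨w, hw⟩
        apply Subtype.ext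
        dsimp only
        rw [Equiv.symm_apply_apply]
    rw [hcard, ← Nat.cast_smul_eq_nsmul ℂ]

end Pool.Agent.K1H39.KG
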